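import Pool.Agent.H80.P3

/-!
# Cyclic groups are determined by their system of length sets among groups of at most their order

Problem MP_8d3ff5_al (Q1).  Notation (`Irr1`, `Irr2`, `LengthSet`, `LengthSystem`) as in
`Pool.Agent.H80.P2`.
-/

namespace Pool.Agent.Results.MP_8d3ff5_al.CyclicGroups

open Pool.Agent.H80.P2 Pool.Agent.H80.P3

universe u v

/-- **Result.** Let `H` be a finite cyclic group and `K` a finite group with `|K| ≤ |H|`. If the
system of length sets of `H` is contained in that of `K`, for one of the two notions of
irreducibility (the same for both groups), then `K` is isomorphic to `H`. -/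
theorem result (H : Type u) (K : Type v) [Group H] [Finite H] [Group K] [Finite K]
    (hcyc : IsCyclic H) (hcard : Nat.card K ≤ Nat.card H)
    (h : LengthSystem (G := H) Irr1 ⊆ LengthSystem (G := K) Irr1 ∨
      LengthSystem (G := H) Irr2 ⊆ LengthSystem (G := K) Irr2) :
    Nonempty (H ≃* K) := by
  rcases h with h | h
  · exact cyclic_aux Irr1 Irr1 (fun _ h => h) (fun _ h => h.nt) (fun _ h => h.nt) hcard h
  · exact cyclic_aux Irr2 Irr2 (fun _ h => h.irr2) (fun _ h => h.nt) (fun _ h => h.nt) hcard h

end Pool.Agent.Results.MP_8d3ff5_al.CyclicGroups
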