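import Pool.Agent.H80.P3

/-!
# The system of length sets of a power monoid determines a finite group up to finitely many

Problem MP_8d3ff5_al (Q1).  The elements of the reduced finitary power monoid of a group `G` are
the finite sets `X ⊆ G` with `1 ∈ X`; the product is the pointwise product of sets.

* `Irr1` : irreducible exactly as printed in the problem file (`A ≠ {1}` is not `B * C` with
  `B, C ≠ {1}`);
* `Irr2` : irreducible as in the literature (`A ≠ {1}` is not `B * C` with `B, C ∉ {{1}, A}`);
* `LengthSet Irr X`: all `k` for which `X` is a product of `k` irreducibles;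
* `LengthSystem Irr`: the set of all length sets.
-/

namespace Pool.Agent.Results.MP_8d3ff5_al.FiniteToOne

open Pool.Agent.H80.P2 Pool.Agent.H80.P3

universe u v

/-- The explicit bound. -/
def bound (h : ℕ) : ℕ :=
  ((2 * 27 ^ h) * (2 * 27 ^ h) ^ (2 * 27 ^ h)) ^ (2 * 27 ^ h + 1)

/-- **Result.** If the system of length sets of `K` is contained in that of `H`, for one of the
two notions of irreducibility (the same for both groups), then `|K| ≤ bound |H|`. -/
theorem result (H : Type u) (K : Type v) [Group H] [Finite H] [Group K] [Finite K]
    (h : LengthSystem (G := K) Irr1 ⊆ LengthSystem (G := H) Irr1 ∨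
      LengthSystem (G := K) Irr2 ⊆ LengthSystem (G := H) Irr2) :
    Nat.card K ≤ bound (Nat.card H) :=
  card_le h

end Pool.Agent.Results.MP_8d3ff5_al.FiniteToOne
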