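import Pool.Agent.H80.P4

/-!
# The system of length sets of a power monoid determines the parity of the order of the group

Problem MP_8d3ff5_al (Q1).  Notation (`Irr1`, `Irr2`, `LengthSet`, `LengthSystem`) as in
`Pool.Agent.H80.P2`.
-/

namespace Pool.Agent.Results.MP_8d3ff5_al.Parity

open Pool.Agent.H80.P2 Pool.Agent.H80.P4

universe u v

/-- **Result.** Let `H` and `K` be finite groups. If the system of length sets of `K` is contained
in that of `H`, for one of the two notions of irreducibility (the same for both groups), and `K`
has even order, then `H` has even order. -/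
theorem result (H : Type u) (K : Type v) [Group H] [Finite H] [Group K] [Finite K]
    (h : LengthSystem (G := K) Irr1 ⊆ LengthSystem (G := H) Irr1 ∨
      LengthSystem (G := K) Irr2 ⊆ LengthSystem (G := H) Irr2)
    (hK : Even (Nat.card K)) : Even (Nat.card H) :=
  even_iff_two_dvd.2 (even_mono h (even_iff_two_dvd.1 hK))

end Pool.Agent.Results.MP_8d3ff5_al.Parity
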